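import Mathlib
import Pool.Agent.H.MP_8a0948_an.A

set_option autoImplicit false

namespace Pool.Agent.Results.MP_8a0948_an.Fails

open Pool.Agent.H.MP_8a0948_an

theorem result : (Q1 ↔ ¬ ∃ ε m, 0 < ε ∧ IsQ ε m) ∧
    (Cardinal.continuum.{0} = Cardinal.aleph 1 → ¬ Q1) :=
  ⟨⟨fun h ⟨_, _, h1, h2⟩ => not_Q1 h1 h2 h, fun h ε m h1 h2 => absurd ⟨ε, m, h1, h2⟩ h⟩,
    fun h => (qpoint h).elim fun _ hm => not_Q1 one_pos hm⟩

end Pool.Agent.Results.MP_8a0948_an.Fails
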